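import Pool.Agent.Helper57.REC.Stmts4

/-!
# REC, row REQ: the reciprocity law for characters of prime power order
(from TRK2, FST, OVP)
-/

set_option autoImplicit false

open scoped Classical
open NumberField

namespace REC

open Pool.Agent.Helper13.ZL (Pl q HasMean)
open MU (Gal Zb Over CongPow)

theorem h68_range_finite {F : Type} [Field F] [NumberField F] {m : ℕ} (hm : 0 < m)
    (χ : Gal F →* ℂˣ) (h : χ ^ m = 1) : Finite χ.range := by
  have : NeZero m := ⟨hm.ne'⟩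
  have hsub : (χ.range : Set ℂˣ) ⊆ (rootsOfUnity m ℂ : Set ℂˣ) := by
    rintro _ ⟨σ, rfl⟩
    rw [SetLike.mem_coe, mem_rootsOfUnity]
    have h1 : (χ ^ m) σ = 1 := by rw [h]; rfl
    simpa using h1
  have hfin : Finite (rootsOfUnity m ℂ) := inferInstance
  have hf : (rootsOfUnity m ℂ : Set ℂˣ).Finite := Set.finite_coe_iff.mp hfin
  exact (hf.subset hsub).to_subtype

theorem st_REQ (hTRK2 : ST_TRK2) (hFST : ST_FST) (hOVP : ST_OVP) : ST_REQ := by
  intro F _ _ l hl χ hopen ha B φ hφ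
  obtain ⟨a, ha'⟩ := ha
  have hfin : Finite χ.range := h68_range_finite (pow_pos hl.pos a) χ ha'
  have hcyc : IsCyclic χ.range := by
    infer_instance
  have hidx : χ.ker.index = Nat.card χ.range := Subgroup.index_ker χ
  have hnpos : 0 < χ.ker.index := by
    rw [hidx]
    exact Nat.card_pos
  have hg : ∃ g : Gal F, ∀ h : Gal F, ∃ k : ℕ, g ^ k * h ∈ χ.ker := by
    obtain ⟨⟨_, g, rfl⟩, hg⟩ := IsCyclic.exists_generator (α := χ.range)
    refine ⟨g, fun h => ?_⟩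
    have h1 : (⟨χ h⁻¹, h⁻¹, rfl⟩ : χ.range) ∈ Submonoid.powers (⟨χ g, g, rfl⟩ : χ.range) := by
      rw [mem_powers_iff_mem_zpowers]
      exact hg _
    obtain ⟨k, hk⟩ := h1
    refine ⟨k, ?_⟩
    rw [MonoidHom.mem_ker, map_mul, map_pow]
    have h2 := congrArg Subtype.val hk
    simp only [SubmonoidClass.coe_pow, map_inv] at h2
    rw [h2]
    exact inv_mul_cancel _
  have hunr : ∀ v : Pl F, v ∉ B → ∀ 𝔓 : Ideal (Zb F), OverP v 𝔓 → ∀ τ : Gal F,
      CongPow 𝔓 1 τ → τ ∈ χ.ker := by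
    intro v hv 𝔓 h𝔓 τ hτ
    rw [MonoidHom.mem_ker]
    have h1 := hφ.2 v hv 𝔓 h𝔓 0 τ (by simpa using hτ)
    simpa using h1
  obtain ⟨N₀, hN₀, hN⟩ := hFST F χ.ker inferInstance hopen hg B hunr
  refine ⟨N₀, hN₀, ?_⟩
  have hcard := hN N₀ le_rfl
  have hpow : φ ^ χ.ker.index = 1 := by
    funext v
    by_cases hv : v ∈ B
    · simp [hφ.1 v hv]
    · obtain ⟨𝔓, h𝔓⟩ := (hOVP F).1 v
      obtain ⟨σ, hσ⟩ := (hOVP F).2.1 v 𝔓 h𝔓
      have h1 := hφ.2 v hv 𝔓 h𝔓 1 σ (by simpa using hσ)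
      rw [pow_one] at h1
      rw [Pi.pow_apply, ← h1, hidx]
      have h2 : (⟨χ σ, σ, rfl⟩ : χ.range) ^ Nat.card χ.range = 1 := pow_card_eq_one'
      have h3 := congrArg Subtype.val h2
      simpa using h3
  set S : Set (Pl F → ℂˣ) := (fun i : ℕ => φ ^ i) '' (Set.Iio χ.ker.index) with hS
  have hSfin : S.Finite := (Set.finite_Iio _).image _
  have hScard : S.ncard ≤ χ.ker.index := by
    refine (Set.ncard_image_le (Set.finite_Iio _)).trans ?_
    rw [Set.ncard_eq_toFinset_card' (Set.Iio χ.ker.index)]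
    simp
  have hmem : ∀ i : ℕ, φ ^ i ∈ S := by
    intro i
    refine ⟨i % χ.ker.index, Nat.mod_lt _ hnpos, ?_⟩
    have h1 : φ ^ i = φ ^ (i % χ.ker.index + χ.ker.index * (i / χ.ker.index)) := by
      rw [Nat.mod_add_div]
    rw [h1, pow_add, pow_mul, hpow, one_pow, mul_one]
  have hsub : X χ.ker B N₀ ⊆ S := by
    intro f hf
    obtain ⟨i, hi⟩ := hTRK2 F l hl χ hopen ⟨a, ha'⟩ B φ hφ N₀ f hf
    rw [hi]
    exact hmem i
  have heq : X χ.ker B N₀ = S :=
    Set.eq_of_subset_of_ncard_le hsub (hScard.trans hcard) hSfin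
  have h1 : φ ∈ X χ.ker B N₀ := by
    rw [heq]
    simpa using hmem 1
  exact h1.1

end REC
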