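import Pool.Agent.Helper57.REC.Stmts6b

/-!
# REC, row INF: the two characters of a triangular motive differ on every open subgroup
(from INC, FRE)
-/

set_option autoImplicit false

open scoped Classical
open NumberField Polynomial

namespace REC

open MU

/-- an element of an `IsSub` line gives a root of the characteristic polynomial -/
theorem h68_inf_root {K : Type} [Field K] (R : Matrix (Fin 2) (Fin 2) K)
    (B : Matrix (Fin 2) (Fin 1) K) (A : Matrix (Fin 1) (Fin 1) K)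
    (C : Matrix (Fin 1) (Fin 2) K) (hC : C * B = 1) (h : R * B = B * A) :
    A 0 0 ^ 2 - R.trace * A 0 0 + R.det = 0 := by
  have h0 := congrFun (congrFun h 0) 0
  have h1 := congrFun (congrFun h 1) 0
  have h2 := congrFun (congrFun hC 0) 0
  simp only [Matrix.mul_apply, Fin.sum_univ_two, Fin.sum_univ_one, Matrix.one_apply_eq,
    Fin.isValue] at h0 h1 h2
  rw [Matrix.trace_fin_two, Matrix.det_fin_two]
  have e0 : B 0 0 * (A 0 0 ^ 2 - (R 0 0 + R 1 1) * A 0 0 + (R 0 0 * R 1 1 - R 0 1 * R 1 0)) = 0 := by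
    linear_combination (-(A 0 0) + R 1 1) * h0 - R 0 1 * h1
  have e1 : B 1 0 * (A 0 0 ^ 2 - (R 0 0 + R 1 1) * A 0 0 + (R 0 0 * R 1 1 - R 0 1 * R 1 0)) = 0 := by
    linear_combination (-(A 0 0) + R 0 0) * h1 - R 1 0 * h0
  calc A 0 0 ^ 2 - (R 0 0 + R 1 1) * A 0 0 + (R 0 0 * R 1 1 - R 0 1 * R 1 0)
      = (C 0 0 * B 0 0 + C 0 1 * B 1 0) *
        (A 0 0 ^ 2 - (R 0 0 + R 1 1) * A 0 0 + (R 0 0 * R 1 1 - R 0 1 * R 1 0)) := by
        rw [h2, one_mul]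
    _ = 0 := by linear_combination C 0 0 * e0 + C 0 1 * e1

theorem h68_inf_pow {K : Type} [Field K] (q : K) (hq : q ≠ 0) (a b : ℕ) (hab : a ≠ b)
    (h : q ^ (a + b) = q ^ (2 * a)) : ∃ k : ℕ, 0 < k ∧ q ^ k = 1 := by
  rcases lt_or_gt_of_ne hab with h1 | h1
  · refine ⟨b - a, by omega, ?_⟩
    have e : a + b = 2 * a + (b - a) := by omega
    rw [e, pow_add] at h
    exact mul_left_cancel₀ (pow_ne_zero (2 * a) hq) (by rw [h, mul_one])
  · refine ⟨a - b, by omega, ?_⟩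
    have e : 2 * a = (a + b) + (a - b) := by omega
    rw [e, pow_add (n := a - b)] at h
    exact mul_left_cancel₀ (pow_ne_zero (a + b) hq) (by rw [← h, mul_one])

theorem st_INF (hINC : ST_INC) (hFRE : MU.ST_FRE) : ST_INF := by
  intro F _ _ S hS w h M hh l hl B A hBA H hH
  obtain ⟨⟨𝔓, h𝔓, -⟩, -⟩ := hFRE F l hl.out
  obtain ⟨σ, hσH, hσ1, hσ2⟩ := hINC F l 𝔓 h𝔓 H hH
  refine ⟨σ, hσH, fun hdisc => ?_⟩
  obtain ⟨⟨C, hC⟩, hB⟩ := id hBA
  -- the eigenvalue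
  have hroot := h68_inf_root (rat (M.ρ l) σ) B (A σ) C hC (hB σ)
  obtain ⟨J, hJ, hJ1⟩ := M.hodgeTate l 1 B A hBA 𝔓 h𝔓
  obtain ⟨j, rfl⟩ := Finset.card_eq_one.mp hJ
  have hα := hJ1 σ hσ1
  rw [Finset.sum_singleton, Matrix.det_fin_one] at hα
  -- the determinant
  have hone : IsSub (rat (M.ρ l)) (1 : Matrix (Fin 2) (Fin 2) ℚ_[l]) (fun g => rat (M.ρ l) g) :=
    ⟨⟨1, by simp⟩, fun g => by simp⟩
  obtain ⟨J, hJ', hJ2⟩ := M.hodgeTate l 2 1 _ hone 𝔓 h𝔓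
  have hJu : J = Finset.univ := Finset.eq_univ_of_card J (by rw [hJ']; rfl)
  have hδ := hJ2 σ hσ1
  rw [hJu, Fin.sum_univ_two] at hδ
  set q : ℚ_[l] := (((cyc l F σ : ℤ_[l]ˣ) : ℤ_[l]) : ℚ_[l]) with hqdef
  have hq0 : q ≠ 0 := by
    intro h0
    have : ((cyc l F σ : ℤ_[l]ˣ) : ℤ_[l]) = 0 := by
      have := PadicInt.coe_eq_zero.mp h0
      exact this
    exact (cyc l F σ).ne_zero this
  have hqk : ∀ k : ℕ, 0 < k → q ^ k ≠ 1 := by
    intro k hk h1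
    apply hσ2 k hk
    apply Units.ext
    have h2 : (((cyc l F σ : ℤ_[l]ˣ) : ℤ_[l]) ^ k : ℤ_[l]) = 1 := by
      have h3 : ((((cyc l F σ : ℤ_[l]ˣ) : ℤ_[l]) ^ k : ℤ_[l]) : ℚ_[l]) = ((1 : ℤ_[l]) : ℚ_[l]) := by
        rw [PadicInt.coe_pow, PadicInt.coe_one]
        exact h1
      exact Subtype.ext h3
    rw [Units.val_pow_eq_pow_val, Units.val_one]
    exact h2
  set t := (rat (M.ρ l) σ).trace
  set d := (rat (M.ρ l) σ).det
  set α := A σ 0 0
  -- double root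
  have h2 : (2 * α - t) ^ 2 = 0 := by
    linear_combination 4 * hroot + hdisc
  have h3 : t = 2 * α := by
    have := pow_eq_zero_iff (two_ne_zero) |>.mp h2
    linear_combination -this
  have h4 : d = α ^ 2 := by
    have : (4 : ℚ_[l]) ≠ 0 := by norm_num
    apply mul_left_cancel₀ this
    rw [← hdisc, h3]
    ring
  -- powers of q
  have h5 : q ^ (h 0 + h 1) = q ^ (2 * h j) := by
    have hd0 : d ≠ 0 := by
      intro h0
      rw [h0, zero_mul] at hδ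
      exact zero_ne_one hδ
    apply mul_left_cancel₀ hd0
    rw [hδ, h4]
    have : α ^ 2 * q ^ (2 * h j) = (α * q ^ h j) ^ 2 := by ring
    rw [this, hα, one_pow]
  have hj : ∃ a b : ℕ, a ≠ b ∧ q ^ (a + b) = q ^ (2 * a) := by
    fin_cases j
    · exact ⟨h 0, h 1, hh, h5⟩
    · exact ⟨h 1, h 0, hh.symm, by rw [add_comm]; exact h5⟩
  obtain ⟨a, b, hab, hp⟩ := hj
  obtain ⟨k, hk, hk1⟩ := h68_inf_pow q hq0 a b hab hp
  exact hqk k hk hk1

end REC
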